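import Pool.Agent.H568.PH.Stm

/-! Vaughan's method with bounded coefficients. -/

set_option autoImplicit false

open Finset Filter Topology Pool.Agent.N792 Pool.Agent.H568.PH

namespace Pool.Agent.H234.PH

open ArithmeticFunction (vonMangoldt)
open Pool.Agent.Helper112 (betaV LamII)
open Pool.Agent.Helper112.TI (mu1 l1 mu1_apply l1_apply)
open Pool.Agent.Helper112.TII (betaV_abs betaV_zero)
open Pool.Agent.H373R2.T3 (abel_Ioc vaughan_sum conv_abs_le conv_zero)
open Pool.Agent.H373R2.T7 (bil_gen)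

/-- a bilinear form with bounded coefficients that vanish up to `V` -/
theorem va_piece (E : ℕ → ℝ) (N N' V : ℕ) (hV : 1 ≤ V) (R : ℝ) (hR : 0 ≤ R)
    (hII : ∀ α β : ℕ → ℝ, (∀ r, |α r| ≤ 1) → (∀ s, |β s| ≤ 1) → ∀ J K : ℕ, 1 ≤ J → 1 ≤ K → V < 2 * J → V < 2 * K → J * K ≤ N' →
      |∑ r ∈ Ioc J (2 * J), ∑ s ∈ Ioc K (2 * K), α r * β s * (if N < r * s ∧ r * s ≤ N' then E (r * s) else 0)| ≤ R)
    (a b : ℕ → ℝ) (A B : ℝ) (hA : 0 < A) (hB : 0 < B) (ha : ∀ m, 1 ≤ m → m ≤ N' → |a m| ≤ A)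
    (hb : ∀ l, 1 ≤ l → l ≤ N' → |b l| ≤ B) (ha0 : ∀ m, m ≤ V → a m = 0) (hb0 : ∀ l, l ≤ V → b l = 0) :
    ‖∑ m ∈ Icc 1 N', ∑ l ∈ Ioc (N / m) (N' / m), ((a m : ℝ) : ℂ) * ((b l : ℝ) : ℂ) * ((E (m * l) : ℝ) : ℂ)‖ ≤
      (Nat.log 2 N' + 1 : ℝ) ^ 2 * (A * B * R) := by
  apply bil_gen (fun n => ((E n : ℝ) : ℂ)) N N' V hV (fun m => ((a m : ℝ) : ℂ)) (fun l => ((b l : ℝ) : ℂ)) (A * B * R)
    (by positivity)
  · intro m hm
    try simp only
    rw [ha0 m hm, Complex.ofReal_zero]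
  · intro l hl
    try simp only
    rw [hb0 l hl, Complex.ofReal_zero]
  intro J K hJ hK hVJ hVK hJK
  have h1 := hII (fun m => if 1 ≤ m ∧ m ≤ N' then a m / A else 0) (fun l => if 1 ≤ l ∧ l ≤ N' then b l / B else 0)
    (by
      intro r
      try simp only
      split_ifs with h
      · rw [abs_div, abs_of_pos hA, div_le_one hA]
        exact ha r h.1 h.2
      · rw [abs_zero]; norm_num)
    (by
      intro r
      try simp only
      split_ifs with h
      · rw [abs_div, abs_of_pos hB, div_le_one hB]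
        exact hb r h.1 h.2
      · rw [abs_zero]; norm_num) J K hJ hK hVJ hVK hJK
  have h2 : ∑ m ∈ Ioc J (2 * J), ∑ l ∈ Ioc K (2 * K), ((a m : ℝ) : ℂ) * ((b l : ℝ) : ℂ) *
      (if N < m * l ∧ m * l ≤ N' then ((E (m * l) : ℝ) : ℂ) else 0) =
      ((A * B * ∑ r ∈ Ioc J (2 * J), ∑ s ∈ Ioc K (2 * K), (if 1 ≤ r ∧ r ≤ N' then a r / A else 0) *
        (if 1 ≤ s ∧ s ≤ N' then b s / B else 0) * (if N < r * s ∧ r * s ≤ N' then E (r * s) else 0) : ℝ) : ℂ) := by
    rw [mul_sum, Complex.ofReal_sum]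
    apply sum_congr rfl; intro m hm
    rw [mul_sum, Complex.ofReal_sum]
    apply sum_congr rfl; intro l hl
    rw [mem_Ioc] at hm hl
    by_cases h3 : N < m * l ∧ m * l ≤ N'
    · have hm1 : 1 ≤ m := by omega
      have hl1 : 1 ≤ l := by omega
      have hm2 : m ≤ N' := (Nat.le_mul_of_pos_right m hl1).trans h3.2
      have hl2 : l ≤ N' := (Nat.le_mul_of_pos_left l hm1).trans h3.2
      rw [if_pos h3, if_pos h3, if_pos ⟨hm1, hm2⟩, if_pos ⟨hl1, hl2⟩, ← Complex.ofReal_mul, ← Complex.ofReal_mul]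
      congr 1
      field_simp
    · rw [if_neg h3, if_neg h3, mul_zero, mul_zero, mul_zero, Complex.ofReal_zero]
  rw [h2, Complex.norm_real, Real.norm_eq_abs, abs_mul, abs_of_pos (mul_pos hA hB)]
  exact mul_le_mul_of_nonneg_left h1 (mul_pos hA hB).le

theorem t_VA : S_VA := by
  intro E N N' V hN hNN' hN' hV hV3 Y R D hY hR hD hI hII
  have hN0 : (1 : ℝ) ≤ N := by exact_mod_cast hN
  set Lg : ℝ := 1 + Real.log (4 * N) with hLg
  have hlog4N : 0 ≤ Real.log (4 * (N : ℝ)) := Real.log_nonneg (by linarith)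
  have hLg1 : 1 ≤ Lg := by linarith
  have hLg0 : 0 < Lg := by linarith
  have hlogle : ∀ t : ℝ, 1 ≤ t → t ≤ 4 * N → Real.log t ≤ Lg := by
    intro t ht ht2
    have := Real.log_le_log (by linarith) ht2
    linarith
  have hVN : V ≤ N := (Nat.le_self_pow (by norm_num) V).trans hV3
  have hD1 : 1 ≤ D := by
    have := hD 1 le_rfl (by omega)
    simpa using this
  have hD0 : 0 < D := by linarith
  -- part 1
  have hS1 : ‖∑ m ∈ Icc 1 N', ∑ l ∈ Ioc (N / m) (N' / m), ((betaV V m : ℝ) : ℂ) *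
      (((if V < l then vonMangoldt l else 0 : ℝ)) : ℂ) * ((E (m * l) : ℝ) : ℂ)‖ ≤
      (Nat.log 2 N' + 1 : ℝ) ^ 2 * (D * Lg * R) := by
    apply va_piece E N N' V hV R hR hII (fun m => betaV V m) (fun l => if V < l then vonMangoldt l else 0) D Lg hD0 hLg0
    · intro m h1 h2
      exact (betaV_abs V m).trans (hD m h1 h2)
    · intro l h1 h2
      try simp only
      split_ifs
      · rw [abs_of_nonneg ArithmeticFunction.vonMangoldt_nonneg]
        refine ArithmeticFunction.vonMangoldt_le_log.trans (hlogle _ ?_ ?_)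
        · exact_mod_cast h1
        · exact_mod_cast (by omega : l ≤ 4 * N)
      · rw [abs_zero]; exact hLg0.le
    · intro m hm
      exact betaV_zero V m hm
    · intro l hl
      try simp only
      rw [if_neg (by omega)]
  -- part 2
  have hS2 : ‖∑ m ∈ Icc 1 N', ((mu1 V m : ℝ) : ℂ) * ∑ l ∈ Ioc (N / m) (N' / m), ((Real.log l : ℝ) : ℂ) * ((E (m * l) : ℝ) : ℂ)‖ ≤
      2 * Lg * (V * Y) := by
    have h2 : ∀ m ∈ Icc 1 N', ‖((mu1 V m : ℝ) : ℂ) * ∑ l ∈ Ioc (N / m) (N' / m), ((Real.log l : ℝ) : ℂ) * ((E (m * l) : ℝ) : ℂ)‖ ≤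
        if m ≤ V then 2 * Lg * Y else 0 := by
      intro m hm
      rw [mem_Icc] at hm
      split_ifs with hmU
      · rw [norm_mul, Complex.norm_real, Real.norm_eq_abs]
        have h3 : |mu1 V m| ≤ 1 := by
          rw [mu1_apply, if_pos hmU]
          exact_mod_cast ArithmeticFunction.abs_moebius_le_one
        have h4 : ‖∑ l ∈ Ioc (N / m) (N' / m), ((Real.log l : ℝ) : ℂ) * ((E (m * l) : ℝ) : ℂ)‖ ≤
            2 * Real.log ((N' / m : ℕ) : ℝ) * Y := by
          apply abel_Ioc (N / m) (N' / m) (Nat.div_le_div_right hNN') (fun l : ℕ => Real.log l) (fun l => ((E (m * l) : ℝ) : ℂ))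
          · intro a b hab
            try simp only
            rcases Nat.eq_zero_or_pos a with h | h
            · rw [h, Nat.cast_zero, Real.log_zero]; exact Real.log_natCast_nonneg _
            · exact Real.log_le_log (by exact_mod_cast h) (by exact_mod_cast hab)
          · intro n; exact Real.log_natCast_nonneg _
          · intro b' hb'
            rw [← Complex.ofReal_sum, Complex.norm_real, Real.norm_eq_abs]
            exact hI m (mem_Icc.2 ⟨hm.1, hmU⟩) b' hb'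
        have h5 : Real.log ((N' / m : ℕ) : ℝ) ≤ Lg := by
          have h6 : 1 ≤ N' / m := Nat.div_pos hm.2 hm.1
          apply hlogle
          · exact_mod_cast h6
          · have : N' / m ≤ N' := Nat.div_le_self _ _
            exact_mod_cast (by omega : N' / m ≤ 4 * N)
        calc |mu1 V m| * ‖∑ l ∈ Ioc (N / m) (N' / m), ((Real.log l : ℝ) : ℂ) * ((E (m * l) : ℝ) : ℂ)‖ ≤
              1 * (2 * Real.log ((N' / m : ℕ) : ℝ) * Y) := mul_le_mul h3 h4 (norm_nonneg _) (by norm_num)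
          _ ≤ 1 * (2 * Lg * Y) := by gcongr
          _ = _ := by ring
      · rw [mu1_apply, if_neg (by omega)]; simp
    refine (norm_sum_le _ _).trans ((sum_le_sum h2).trans ?_)
    rw [← sum_filter, sum_const, nsmul_eq_mul]
    have h7 : ((#({m ∈ Icc 1 N' | m ≤ V}) : ℕ) : ℝ) ≤ V := by
      have h8 : #({m ∈ Icc 1 N' | m ≤ V}) ≤ #(Icc 1 V) := by
        apply card_le_card
        intro m hm; rw [mem_filter, mem_Icc] at hm; rw [mem_Icc]; omega
      rw [Nat.card_Icc] at h8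
      exact_mod_cast (by omega : #({m ∈ Icc 1 N' | m ≤ V}) ≤ V)
    calc _ ≤ (V : ℝ) * (2 * Lg * Y) := mul_le_mul_of_nonneg_right h7 (by positivity)
      _ = _ := by ring
  -- part 3, small m
  have hS3 : ‖∑ m ∈ Icc 1 N', (if m ≤ V then (((mu1 V * l1 V) m : ℝ) : ℂ) * ∑ l ∈ Ioc (N / m) (N' / m), ((E (m * l) : ℝ) : ℂ)
      else 0)‖ ≤ Lg * (V * Y) := by
    have h2 : ∀ m ∈ Icc 1 N', ‖(if m ≤ V then (((mu1 V * l1 V) m : ℝ) : ℂ) * ∑ l ∈ Ioc (N / m) (N' / m), ((E (m * l) : ℝ) : ℂ)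
        else 0)‖ ≤ if m ≤ V then Lg * Y else 0 := by
      intro m hm
      rw [mem_Icc] at hm
      split_ifs with hmU
      · rw [norm_mul, Complex.norm_real, Real.norm_eq_abs]
        have h3 : |(mu1 V * l1 V) m| ≤ Lg := (conv_abs_le V V m hm.1).trans (hlogle _ (by exact_mod_cast hm.1) (by
            exact_mod_cast (by omega : m ≤ 4 * N)))
        refine mul_le_mul h3 ?_ (norm_nonneg _) (by linarith)
        rw [← Complex.ofReal_sum, Complex.norm_real, Real.norm_eq_abs]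
        exact hI m (mem_Icc.2 ⟨hm.1, hmU⟩) _ le_rfl
      · rw [norm_zero]
    refine (norm_sum_le _ _).trans ((sum_le_sum h2).trans ?_)
    rw [← sum_filter, sum_const, nsmul_eq_mul]
    have h7 : ((#({m ∈ Icc 1 N' | m ≤ V}) : ℕ) : ℝ) ≤ V := by
      have h8 : #({m ∈ Icc 1 N' | m ≤ V}) ≤ #(Icc 1 V) := by
        apply card_le_card
        intro m hm; rw [mem_filter, mem_Icc] at hm; rw [mem_Icc]; omega
      rw [Nat.card_Icc] at h8
      exact_mod_cast (by omega : #({m ∈ Icc 1 N' | m ≤ V}) ≤ V)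
    calc _ ≤ (V : ℝ) * (Lg * Y) := mul_le_mul_of_nonneg_right h7 (by positivity)
      _ = _ := by ring
  -- part 3, large m
  have hS4 : ‖∑ m ∈ Icc 1 N', ∑ l ∈ Ioc (N / m) (N' / m), (((if V < m then (mu1 V * l1 V) m else 0 : ℝ)) : ℂ) *
      (((if V < l then 1 else 0 : ℝ)) : ℂ) * ((E (m * l) : ℝ) : ℂ)‖ ≤
      (Nat.log 2 N' + 1 : ℝ) ^ 2 * (Lg * 1 * R) := by
    apply va_piece E N N' V hV R hR hII (fun m => if V < m then (mu1 V * l1 V) m else 0) (fun l => if V < l then 1 else 0)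
      Lg 1 hLg0 one_pos
    · intro m h1 h2
      try simp only
      split_ifs
      · exact (conv_abs_le V V m h1).trans (hlogle _ (by exact_mod_cast h1) (by exact_mod_cast (by omega : m ≤ 4 * N)))
      · rw [abs_zero]; exact hLg0.le
    · intro l h1 h2
      try simp only
      split_ifs
      · rw [abs_one]
      · rw [abs_zero]; norm_num
    · intro m hm
      try simp only
      rw [if_neg (by omega)]
    · intro l hl
      try simp only
      rw [if_neg (by omega)]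
  have h34 : ∑ m ∈ Icc 1 N', (((mu1 V * l1 V) m : ℝ) : ℂ) * ∑ l ∈ Ioc (N / m) (N' / m), ((E (m * l) : ℝ) : ℂ) =
      ∑ m ∈ Icc 1 N', (if m ≤ V then (((mu1 V * l1 V) m : ℝ) : ℂ) * ∑ l ∈ Ioc (N / m) (N' / m), ((E (m * l) : ℝ) : ℂ) else 0) +
      ∑ m ∈ Icc 1 N', ∑ l ∈ Ioc (N / m) (N' / m), (((if V < m then (mu1 V * l1 V) m else 0 : ℝ)) : ℂ) *
      (((if V < l then 1 else 0 : ℝ)) : ℂ) * ((E (m * l) : ℝ) : ℂ) := by
    rw [← sum_add_distrib]
    apply sum_congr rfl; intro m hm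
    rw [mem_Icc] at hm
    by_cases h1 : m ≤ V
    · rw [if_pos h1]
      have h2 : ∑ l ∈ Ioc (N / m) (N' / m), (((if V < m then (mu1 V * l1 V) m else 0 : ℝ)) : ℂ) *
          (((if V < l then 1 else 0 : ℝ)) : ℂ) * ((E (m * l) : ℝ) : ℂ) = 0 := by
        apply sum_eq_zero; intro l _
        rw [if_neg (by omega), Complex.ofReal_zero, zero_mul, zero_mul]
      rw [h2, add_zero]
    · rw [if_neg h1, zero_add]
      have hVm : V < m := by omega
      by_cases h2 : V * V < m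
      · rw [if_pos hVm, conv_zero V V m h2]
        simp
      · rw [mul_sum]
        apply sum_congr rfl; intro l hl
        rw [mem_Ioc] at hl
        have h3 : V ≤ N / m := by
          rw [Nat.le_div_iff_mul_le (by omega)]
          calc V * m ≤ V * (V * V) := Nat.mul_le_mul_left _ (by omega)
            _ = V ^ 3 := by ring
            _ ≤ N := hV3
        rw [if_pos hVm, if_pos (show V < l by omega), Complex.ofReal_one, mul_one]
  have hlog2 : (Nat.log 2 N' + 1 : ℝ) ≤ 2 * Lg := by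
    have hN'1 : 1 ≤ N' := by omega
    have h2 : (Nat.log 2 N' : ℝ) * Real.log 2 ≤ Real.log N' := by
      have h3 : (2 : ℝ) ^ Nat.log 2 N' ≤ N' := by exact_mod_cast Nat.pow_log_le_self 2 (by omega)
      have h4 := Real.log_le_log (by positivity) h3
      rwa [Real.log_pow] at h4
    have h3 : Real.log N' ≤ Real.log (4 * N) := Real.log_le_log (by exact_mod_cast hN'1) (by exact_mod_cast (by omega : N' ≤ 4 * N))
    have h4 := Real.log_two_gt_d9
    have h5 : (0 : ℝ) ≤ Nat.log 2 N' := Nat.cast_nonneg _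
    nlinarith
  have hlog20 : (0 : ℝ) ≤ (Nat.log 2 N' + 1 : ℝ) := by positivity
  have hsq : (Nat.log 2 N' + 1 : ℝ) ^ 2 ≤ 4 * Lg ^ 2 := by
    calc (Nat.log 2 N' + 1 : ℝ) ^ 2 ≤ (2 * Lg) ^ 2 := pow_le_pow_left₀ hlog20 hlog2 2
      _ = _ := by ring
  have hcast : |∑ n ∈ Ioc N N', vonMangoldt n * E n| =
      ‖∑ n ∈ Ioc N N', ((vonMangoldt n : ℝ) : ℂ) * ((fun n => ((E n : ℝ) : ℂ)) n)‖ := by
    rw [← Real.norm_eq_abs, ← Complex.norm_real, Complex.ofReal_sum]
    simp only [Complex.ofReal_mul]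
  rw [hcast, vaughan_sum V V N N' hVN]
  try simp only
  rw [h34]
  refine (norm_sub_le _ _).trans ?_
  refine (add_le_add (norm_add_le _ _) (norm_add_le _ _)).trans ?_
  refine (add_le_add (add_le_add hS1 hS2) (add_le_add hS3 hS4)).trans ?_
  have e1 : (Nat.log 2 N' + 1 : ℝ) ^ 2 * (D * Lg * R) ≤ 4 * Lg ^ 3 * (D * R) := by
    calc _ ≤ 4 * Lg ^ 2 * (D * Lg * R) := mul_le_mul_of_nonneg_right hsq (by positivity)
      _ = _ := by ring
  have e2 : (Nat.log 2 N' + 1 : ℝ) ^ 2 * (Lg * 1 * R) ≤ 4 * Lg ^ 3 * (D * R) := by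
    calc _ ≤ 4 * Lg ^ 2 * (Lg * 1 * R) := mul_le_mul_of_nonneg_right hsq (by positivity)
      _ = 4 * Lg ^ 3 * (1 * R) := by ring
      _ ≤ _ := by gcongr
  have e3 : Lg ^ 3 ≤ Lg ^ 4 := pow_le_pow_right₀ hLg1 (by norm_num)
  have e4 : Lg ≤ Lg ^ 4 := le_self_pow₀ hLg1 (by norm_num)
  have hDR : 0 ≤ D * R := by positivity
  have hVY : 0 ≤ (V : ℝ) * Y := by positivity
  have e5 : Lg ^ 3 * (D * R) ≤ Lg ^ 4 * (D * R) := mul_le_mul_of_nonneg_right e3 hDR
  have e6 : Lg * (V * Y) ≤ Lg ^ 4 * (V * Y) := mul_le_mul_of_nonneg_right e4 hVY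
  have e7 : 0 ≤ Lg ^ 4 * (D * R) := by positivity
  have e8 : 0 ≤ Lg ^ 4 * (V * Y) := by positivity
  nlinarith

end Pool.Agent.H234.PH
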